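import Mathlib

set_option autoImplicit false

namespace Pool.Agent.H.MP_c671ed_lc

open Quaternion Function Cardinal

section aniso
open Polynomial
variable {A : Type} [CommRing A] [IsDomain A]

lemma par (P Q : A[X]) (h : P = X * Q) (hP : P ≠ 0 → Even P.natDegree)
    (hQ : Q ≠ 0 → Even Q.natDegree) : P = 0 ∧ Q = 0 := by
  by_cases h0 : Q = 0
  · simp [h, h0]
  have h1 := hP (h ▸ mul_ne_zero X_ne_zero h0)
  rw [h, natDegree_X_mul h0, Nat.even_add_one] at h1
  exact absurd (hQ h0) h1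

lemma step1 (x y : A[X]) (h : x ^ 2 = X * y ^ 2) : x = 0 ∧ y = 0 := by
  simpa using par _ _ h (fun _ => by simp [natDegree_pow]) fun _ => by simp [natDegree_pow]

omit [IsDomain A] in
lemma step2 (t : A) (ht : ∀ x y : A, x ^ 2 = t * y ^ 2 → x = 0 ∧ y = 0) (a c : A[X]) :
    (a ^ 2 - C t * c ^ 2 ≠ 0 → Even (a ^ 2 - C t * c ^ 2).natDegree) ∧
      (a ^ 2 - C t * c ^ 2 = 0 → a = 0 ∧ c = 0) := by
  by_cases h0 : a = 0 ∧ c = 0
  · simp [h0.1, h0.2]
  have ha : a.natDegree ≤ max a.natDegree c.natDegree := le_max_left _ _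
  have hc : c.natDegree ≤ max a.natDegree c.natDegree := le_max_right _ _
  have hn : (a ^ 2 - C t * c ^ 2).coeff (2 * max a.natDegree c.natDegree) ≠ 0 := by
    rw [coeff_sub, coeff_C_mul, coeff_pow_of_natDegree_le ha, coeff_pow_of_natDegree_le hc,
      sub_ne_zero]
    intro h
    obtain ⟨h1, h2⟩ := ht _ _ h
    rcases le_total a.natDegree c.natDegree with h3 | h3
    · rw [max_eq_right h3] at h1 h2
      have : c = 0 := leadingCoeff_eq_zero.1 h2
      subst this
      rw [natDegree_zero] at h1 h3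
      exact h0 ⟨by rw [eq_C_of_natDegree_le_zero h3, h1, C_0], rfl⟩
    · rw [max_eq_left h3] at h1 h2
      have : a = 0 := leadingCoeff_eq_zero.1 h1
      subst this
      rw [natDegree_zero] at h2 h3
      exact h0 ⟨rfl, by rw [eq_C_of_natDegree_le_zero h3, h2, C_0]⟩
  refine ⟨fun _ => ?_, fun h => absurd (by rw [h, coeff_zero]) hn⟩
  rw [natDegree_eq_of_le_of_coeff_ne_zero ?_ hn]
  · exact even_two_mul _
  · refine (natDegree_sub_le _ _).trans (max_le ?_ ((natDegree_C_mul_le _ _).trans ?_)) <;>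
      exact natDegree_pow_le.trans (Nat.mul_le_mul_left _ ‹_›)

end aniso

open MvPolynomial

/-- the commutative coefficient ring -/
abbrev CC := MvPolynomial (Option (Option ℕ)) ℂ
/-- its fraction field -/
abbrev LL := FractionRing CC
/-- the uncountable ring -/
abbrev RR := ℍ[CC, X none, 0, X (some none)]
/-- the division ring -/
abbrev DD := ℍ[LL, algebraMap CC LL (X none), 0, algebraMap CC LL (X (some none))]

lemma anisoC (a b c d : CC)
    (h : a ^ 2 - X (some none) * c ^ 2 = X none * (b ^ 2 - X (some none) * d ^ 2)) :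
    a = 0 ∧ b = 0 ∧ c = 0 ∧ d = 0 := by
  have h1 : ∀ x y : MvPolynomial (Option ℕ) ℂ, x ^ 2 = X none * y ^ 2 → x = 0 ∧ y = 0 := by
    intro x y h
    have := congrArg (optionEquivLeft ℂ ℕ) h
    simp only [map_mul, map_pow, optionEquivLeft_X_none] at this
    simpa using step1 _ _ this
  have := congrArg (optionEquivLeft ℂ (Option ℕ)) h
  simp only [map_mul, map_pow, map_sub, optionEquivLeft_X_none, optionEquivLeft_X_some] at this
  obtain ⟨p1, p2⟩ := par _ _ this (step2 _ h1 _ _).1 (step2 _ h1 _ _).1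
  have q1 := (step2 _ h1 _ _).2 p1
  have q2 := (step2 _ h1 _ _).2 p2
  simp only [map_eq_zero_iff _ (AlgEquiv.injective _)] at q1 q2
  exact ⟨q1.1, q2.1, q1.2, q2.2⟩

lemma anisoL (a b c d : LL) (h : a ^ 2 - algebraMap CC LL (X none) * b ^ 2 -
    algebraMap CC LL (X (some none)) * c ^ 2 +
    algebraMap CC LL (X none) * algebraMap CC LL (X (some none)) * d ^ 2 = 0) :
    a = 0 ∧ b = 0 ∧ c = 0 ∧ d = 0 := by
  obtain ⟨e, he⟩ := IsLocalization.exist_integer_multiples_of_finite (nonZeroDivisors CC)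
    ![a, b, c, d]
  obtain ⟨a', ha⟩ := he 0
  obtain ⟨b', hb⟩ := he 1
  obtain ⟨c', hc⟩ := he 2
  obtain ⟨d', hd⟩ := he 3
  simp only [Algebra.smul_def, Matrix.cons_val] at ha hb hc hd
  have e0 : algebraMap CC LL e ≠ 0 := IsFractionRing.to_map_ne_zero_of_mem_nonZeroDivisors e.2
  obtain ⟨rfl, rfl, rfl, rfl⟩ := anisoC a' b' c' d' (IsFractionRing.injective CC LL (by
    simp only [map_sub, map_mul, map_pow, ha, hb, hc, hd]
    linear_combination (algebraMap CC LL e) ^ 2 * h))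
  rw [map_zero, eq_comm, mul_eq_zero, or_iff_right e0] at ha hb hc hd
  exact ⟨ha, hb, hc, hd⟩

/-- componentwise map -/
noncomputable def qmap (φ : CC →+* LL) (h1 : φ (X none) = algebraMap CC LL (X none))
    (h2 : φ (X (some none)) = algebraMap CC LL (X (some none))) : RR →+* DD where
  toFun q := ⟨φ q.re, φ q.imI, φ q.imJ, φ q.imK⟩
  map_one' := by ext <;> simp
  map_zero' := by ext <;> simp
  map_add' x y := by ext <;> simp
  map_mul' x y := by ext <;> simp [h1, h2]

theorem not_sub {D : Type} [DivisionRing D] (π : RR →ₙ+* D) (hπ : Surjective π) :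
    π ⟨0, 0, 0, 1⟩ = 0 := by
  have h1 : π 1 = 1 := by
    obtain ⟨x, hx⟩ := hπ 1
    rw [← mul_one (π 1), ← hx, ← map_mul, one_mul]
  let ρ : RR →+* D := { π with map_one' := h1 }
  have hc : ∀ (a : CC) (y : D), ρ (algebraMap CC RR a) * y = y * ρ (algebraMap CC RR a) := by
    intro a y
    obtain ⟨x, rfl⟩ := hπ y
    exact (map_mul ρ _ x).symm.trans ((congrArg ρ (Algebra.commutes a x)).trans (map_mul ρ x _))
  let τ : CC →+* Subring.center D := (ρ.comp (algebraMap CC RR)).codRestrict _ fun a =>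
    Subring.mem_center_iff.2 fun y => (hc a y).symm
  let _ : Algebra ℂ D := (ρ.comp ((algebraMap CC RR).comp C)).toAlgebra' fun a => hc _
  let _ : Algebra ℂ (Subring.center D) := (τ.comp C).toAlgebra
  let f : RR →ₗ[ℂ] D :=
    { toFun := ρ
      map_add' := map_add ρ
      map_smul' := fun a x => by
        rw [← IsScalarTower.algebraMap_smul CC a x, Algebra.smul_def, map_mul]; rfl }
  let g : Subring.center D →ₗ[ℂ] D :=
    { toFun := Subtype.val
      map_add' := fun _ _ => rfl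
      map_smul' := fun _ _ => rfl }
  have hr : Module.rank ℂ (Subring.center D) ≤ ℵ₀ := by
    refine (g.rank_le_of_injective Subtype.val_injective).trans
      ((f.rank_le_of_surjective hπ).trans ?_)
    rw [← rank_mul_rank ℂ CC RR, QuaternionAlgebra.rank_eq_four, MvPolynomial.rank_eq]
    exact (mul_le_mul' mk_le_aleph0 (natCast_lt_aleph0 (n := 4)).le).trans_eq aleph0_mul_aleph0
  have : Algebra.IsAlgebraic ℂ (Subring.center D) := ⟨fun x => by
    by_contra h
    have := (Transcendental.linearIndependent_sub_inv h).cardinal_le_rank.trans hr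
    rw [Cardinal.mk_complex] at this
    exact absurd this (not_le.2 aleph0_lt_continuum)⟩
  obtain ⟨a, ha⟩ := (IsAlgClosed.algebraMap_bijective_of_isIntegral (k := ℂ)
    (K := Subring.center D)).2 (τ (X none))
  obtain ⟨b, rfl⟩ := IsAlgClosed.exists_eq_mul_self a
  have hb : ∀ y : D, algebraMap ℂ D b * y = y * algebraMap ℂ D b := Algebra.commutes b
  have hi : ρ ⟨0, 1, 0, 0⟩ * ρ ⟨0, 1, 0, 0⟩ = algebraMap ℂ D b * algebraMap ℂ D b := by
    rw [← map_mul, ← map_mul]
    refine Eq.trans ?_ (congrArg Subtype.val ha).symm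
    exact congrArg ρ (by ext <;> simp)
  have hij : ρ ⟨0, 1, 0, 0⟩ * ρ ⟨0, 0, 1, 0⟩ = ρ ⟨0, 0, 1, 0⟩ * ρ ⟨0, 1, 0, 0⟩ := by
    have : (ρ ⟨0, 1, 0, 0⟩ - algebraMap ℂ D b) * (ρ ⟨0, 1, 0, 0⟩ + algebraMap ℂ D b) = 0 := by
      rw [sub_mul, mul_add, mul_add, hi, hb (ρ ⟨0, 1, 0, 0⟩)]; abel
    rcases mul_eq_zero.1 this with h | h
    · rw [sub_eq_zero.1 h, hb]
    · rw [eq_neg_of_add_eq_zero_left h, neg_mul, mul_neg, hb]
  rw [← map_mul, ← map_mul, ← sub_eq_zero, ← map_sub] at hij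
  have h2 : f ((2 : ℂ) • ⟨0, 0, 0, 1⟩) = 0 := by
    refine Eq.trans (congrArg ρ ?_) hij
    ext <;> simp [two_smul]
  rw [map_smul, smul_eq_zero] at h2
  exact h2.resolve_left two_ne_zero

theorem is_sub (S : Subring RR) [Countable S] (hS : ∀ a b c d, (⟨X a, X b, X c, X d⟩ : RR) ∈ S) :
    ∃ (D : ℕ → Type) (_ : ∀ i, DivisionRing (D i)) (φ : S →+* ∀ i, D i), Injective φ ∧
      ∀ i, Surjective fun x => φ x i := by
  let ι := algebraMap CC LL
  let K := Subfield.closure (Set.range (fun a => ι (X a)) ∪ Set.range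
    fun z : S × Fin 4 × (Option (Option ℕ) →₀ ℕ) =>
      ι (C (coeff z.2.2 (![z.1.1.re, z.1.1.imI, z.1.1.imJ, z.1.1.imK] z.2.1))))
  have : Countable K := by
    rw [← mk_le_aleph0_iff]
    refine (Subfield.cardinalMk_closure_le_max _).trans (max_le ?_ le_rfl)
    exact Cardinal.le_aleph0_iff_set_countable.2
      ((Set.countable_range _).union (Set.countable_range _))
  obtain ⟨en, hen⟩ := exists_surjective_nat K
  have hX : ∀ a, ι (X a) ∈ K := fun a => Subfield.subset_closure (Or.inl ⟨a, rfl⟩)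
  let g : ℕ → Option (Option ℕ) → LL := fun m a => match a with
    | some (some n) => if n < m then ι (X a) else en (n - m)
    | _ => ι (X a)
  have hg : ∀ m a, g m a ∈ K := by
    rintro m (_ | _ | n)
    · exact hX _
    · exact hX _
    · simp only [g]; split_ifs
      · exact hX _
      · exact (en _).2
  let ψ : ℕ → CC →+* LL := fun m => eval₂Hom (ι.comp C) (g m)
  have hψ : ∀ f, ∀ᶠ m in Filter.atTop, ψ m f = ι f := by
    intro f
    induction f using MvPolynomial.induction_on with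
    | C a => exact .of_forall fun m => eval₂Hom_C _ _ _
    | add p q hp hq => filter_upwards [hp, hq] with m h1 h2; rw [map_add, map_add, h1, h2]
    | mul_X p a hp =>
      have : ∀ᶠ m in Filter.atTop, g m a = ι (X a) := by
        rcases a with _ | _ | n
        · exact .of_forall fun _ => rfl
        · exact .of_forall fun _ => rfl
        · filter_upwards [Filter.eventually_gt_atTop n] with m h
          exact if_pos h
      filter_upwards [hp, this] with m h1 h2
      rw [map_mul, map_mul, h1, ← h2]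
      exact congrArg _ (eval₂Hom_X' _ _ _)
  let Φ : ℕ → S →+* DD := fun m =>
    (qmap (ψ m) (eval₂Hom_X' _ _ _) (eval₂Hom_X' _ _ _)).comp S.subtype
  have hin : ∀ m (x : S) (k : Fin 4), ψ m (![x.1.re, x.1.imI, x.1.imJ, x.1.imK] k) ∈ K :=
    fun m x k => eval₂_mem (f := ι.comp C) (s := K)
      (fun i _ => Subfield.subset_closure (Or.inr ⟨(x, k, i), rfl⟩)) (hg m)
  have hout : ∀ m (y : LL), y ∈ K → ∃ a, ψ m (X a) = y := by
    intro m y hy
    obtain ⟨n, hn⟩ := hen ⟨y, hy⟩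
    refine ⟨some (some (n + m)), (eval₂Hom_X' _ _ _).trans ?_⟩
    simp [g, hn]
  have hu : ∀ m (y : (Φ m).range), IsUnit y ∨ y = 0 := by
    rintro m ⟨_, x, rfl⟩
    rw [or_iff_not_imp_right]
    intro h0
    have h1 : ψ m x.1.re ∈ K := hin m x 0
    have h2 : ψ m x.1.imI ∈ K := hin m x 1
    have h3 : ψ m x.1.imJ ∈ K := hin m x 2
    have h4 : ψ m x.1.imK ∈ K := hin m x 3
    have e : Φ m x = ⟨ψ m x.1.re, ψ m x.1.imI, ψ m x.1.imJ, ψ m x.1.imK⟩ := rfl
    generalize ψ m x.1.re = a at h1 e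
    generalize ψ m x.1.imI = b at h2 e
    generalize ψ m x.1.imJ = c at h3 e
    generalize ψ m x.1.imK = d at h4 e
    obtain ⟨N, hN⟩ : ∃ N, N = a ^ 2 - ι (X none) * b ^ 2 - ι (X (some none)) * c ^ 2 +
      ι (X none) * ι (X (some none)) * d ^ 2 := ⟨_, rfl⟩
    have N0 : N ≠ 0 := by
      intro h
      obtain ⟨rfl, rfl, rfl, rfl⟩ := anisoL a b c d (hN ▸ h)
      exact h0 (Subtype.ext e)
    have NK : N ∈ K := hN ▸ add_mem (sub_mem (sub_mem (pow_mem h1 2) (mul_mem (hX _) (pow_mem h2 2)))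
      (mul_mem (hX _) (pow_mem h3 2))) (mul_mem (mul_mem (hX _) (hX _)) (pow_mem h4 2))
    obtain ⟨a', ha⟩ := hout m _ (div_mem h1 NK)
    obtain ⟨b', hb⟩ := hout m _ (neg_mem (div_mem h2 NK))
    obtain ⟨c', hc⟩ := hout m _ (neg_mem (div_mem h3 NK))
    obtain ⟨d', hd⟩ := hout m _ (neg_mem (div_mem h4 NK))
    have e' : Φ m ⟨_, hS a' b' c' d'⟩ = ⟨a / N, -(b / N), -(c / N), -(d / N)⟩ := by
      rw [← ha, ← hb, ← hc, ← hd]; rfl
    refine ⟨⟨_, ⟨_, ⟨_, hS a' b' c' d'⟩, rfl⟩, Subtype.ext ?_, Subtype.ext ?_⟩, rfl⟩ <;>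
    · simp only [Subring.coe_mul, Subring.coe_one, e, e']
      ext <;> simp <;> field_simp <;> first | ring1 | linear_combination -hN
  refine ⟨fun m => (Φ m).range, fun m => DivisionRing.ofIsUnitOrEqZero (hu m),
    RingHom.pi fun m => (Φ m).rangeRestrict, (injective_iff_map_eq_zero _).2 fun x hx => ?_,
    fun m => (Φ m).rangeRestrict_surjective⟩
  obtain ⟨m, ⟨h1, h2⟩, h3, h4⟩ := (((hψ x.1.re).and (hψ x.1.imI)).and
    ((hψ x.1.imJ).and (hψ x.1.imK))).exists
  have e : (⟨ψ m x.1.re, ψ m x.1.imI, ψ m x.1.imJ, ψ m x.1.imK⟩ : DD) = 0 :=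
    congrArg Subtype.val (congrFun hx m)
  rw [h1, h2, h3, h4, QuaternionAlgebra.ext_iff] at e
  simp only [ι, QuaternionAlgebra.re_zero, QuaternionAlgebra.imI_zero, QuaternionAlgebra.imJ_zero,
    QuaternionAlgebra.imK_zero, map_eq_zero_iff _ (IsFractionRing.injective CC LL)] at e
  exact Subtype.ext (QuaternionAlgebra.ext e.1 e.2.1 e.2.2.1 e.2.2.2)

end Pool.Agent.H.MP_c671ed_lc
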